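import Pool.Agent.helper38.TA.SpecR

/-!
# Project TA: row DNR
-/

set_option autoImplicit false

open Complex MeasureTheory Set

namespace Pool.Agent.TA

open Pool.Agent.BA (Par GG kl kf vf fV Bw Den PP wt lam gpf rgz)

theorem DNR_Bw_nonneg (L x : ℝ) (hx : 0 < x) : 0 ≤ Bw L x := by
  unfold Bw
  split_ifs with h
  · exact (Real.rpow_pos_of_pos hx _).le
  · exact inv_nonneg.mpr (sq_nonneg _)

theorem DNR_MY_nonneg (L : ℝ) (f : ℝ → ℝ) : 0 ≤ MY L f := by
  unfold MY
  apply setIntegral_nonneg measurableSet_Ioi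
  intro x hx
  exact mul_nonneg (DNR_Bw_nonneg L x hx) (abs_nonneg _)

/-- the evaluation map, linear in `v` -/
noncomputable def DNR_ev (V : Type) [AddCommGroup V] [Module ℝ V] (g : ℕ → V → ℝ → ℝ) (C₁ : ℝ)
    (hT : TSR V g C₁) (r : ℝ) : V →ₗ[ℝ] (ℕ → ℝ) where
  toFun v p := g 0 v (p / r)
  map_add' v w := by
    funext p
    rw [Pi.add_apply, hT.add]
  map_smul' t v := by
    funext p
    rw [Pi.smul_apply, hT.smul, RingHom.id_apply, smul_eq_mul]

theorem DNR (hSMR : SMR_stmt) (hN1R : N1R_stmt) (hN2R : N2R_stmt) (bHB : Pool.Agent.BA.HB_stmt)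
    (bPS : Pool.Agent.BA.PS_stmt) (bLM : Pool.Agent.BA.LM_stmt) : DNR_stmt := by
  intro V iV iM g C₁ κ N₀ S hP hD
  obtain ⟨x₀, hx0, hx1, CS, hCS, qS, hS⟩ := hSMR V g C₁ κ N₀ S hP hD
  obtain ⟨C1, c1, hC1, hc1, q1, h1⟩ := hN1R V g C₁ κ N₀ S x₀ hP hD hx0 hx1
  obtain ⟨C2, c2, hC2, hc2, q2, h2⟩ := hN2R V g C₁ κ N₀ S x₀ hP hD hx0 hx1
  obtain ⟨CP, hCP, qP, hqP, hPS'⟩ := bPS κ N₀ S x₀ hD hx0 hx1
  refine ⟨x₀, hx0, hx1, max CS (C1 + C2), min c1 c2, lt_max_of_lt_left hCS, lt_min hc1 hc2,
    max 2 (max qS (max q1 (max q2 qP))), lt_max_of_lt_left (by norm_num), ?_⟩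
  intro q hq
  have hq2 : 2 ≤ q := (le_max_left _ _).trans hq
  have hqS : qS ≤ q := ((le_max_left _ _).trans (le_max_right _ _)).trans hq
  have hqq1 : q1 ≤ q := ((le_max_left _ _).trans ((le_max_right _ _).trans (le_max_right _ _))).trans hq
  have hqq2 : q2 ≤ q := ((le_max_left _ _).trans ((le_max_right _ _).trans ((le_max_right _ _).trans
    (le_max_right _ _)))).trans hq
  have hqqP : qP ≤ q := ((le_max_right _ _).trans ((le_max_right _ _).trans ((le_max_right _ _).trans
    (le_max_right _ _)))).trans hq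
  have hlog : 0 < Real.log q := Real.log_pos (by linarith)
  obtain ⟨hw, -, -, -, -⟩ := hPS' q hqqP
  have hwt0 : ∀ p, 0 ≤ wt S x₀ q p := fun p => (hw p).1
  have hwtP : ∀ p : ℕ, ¬ p.Prime → wt S x₀ q p = 0 := by
    intro p hp
    by_contra hne
    exact hp ((hw p).2.2.2 hne).1
  constructor
  · intro Ψ ψ hΨ hψ
    have hsum : ∀ v : V, Summable (fun p => wt S x₀ q p * |DNR_ev V g C₁ hP (√q) v p|) :=
      fun v => (hS q hqS v).1
    have hbd : ∀ v : V, |ψ v| ≤ (Ψ * CS) * ∑' p, wt S x₀ q p * |DNR_ev V g C₁ hP (√q) v p| := by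
      intro v
      refine (hψ v).trans ?_
      rw [mul_assoc]
      exact mul_le_mul_of_nonneg_left (hS q hqS v).2 hΨ
    obtain ⟨β, hβ1, hβ2⟩ := bHB V (wt S x₀ q) (DNR_ev V g C₁ hP (√q)) ψ (Ψ * CS) hwt0
      (mul_nonneg hΨ hCS.le) hsum hbd
    refine ⟨β, ?_, ?_⟩
    · intro p
      refine (hβ1 p).trans ?_
      apply mul_le_mul_of_nonneg_right _ (hwt0 p)
      rw [mul_comm]
      exact mul_le_mul_of_nonneg_right (le_max_left _ _) hΨ
    · intro v
      refine ⟨?_, hβ2 v⟩
      have h3 := (hsum v).mul_left (Ψ * CS)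
      apply Summable.of_norm_bounded h3
      intro p
      rw [Real.norm_eq_abs, abs_mul, ← mul_assoc]
      exact mul_le_mul_of_nonneg_right (hβ1 p) (abs_nonneg _)
  · intro E hE0 hE1 v
    obtain ⟨s1, t1⟩ := h1 q hqq1 E hE0 (hE1.trans (min_le_left _ _)) v
    obtain ⟨s2, t2⟩ := h2 q hqq2 E hE0 (hE1.trans (min_le_right _ _)) v
    have s3 := ((hS q hqS v).1).mul_left E
    have hM := DNR_MY_nonneg (Real.log q) (g 0 v)
    have hlamp : ∀ p : ℕ, p.Prime → lam (fun p => E * wt S x₀ q p) p = E * wt S x₀ q p := by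
      intro p hp
      exact (bLM (fun p => E * wt S x₀ q p) (fun p => E * wt S x₀ q p)).2.1 p hp
    have s4 : Summable (fun m : ℕ => if m < 2 then
        lam (fun p => E * wt S x₀ q p) m * |g 0 v (m / √q)| else 0) := by
      apply summable_of_ne_finset_zero (s := Finset.range 2)
      intro b hb
      rw [Finset.mem_range] at hb
      rw [if_neg hb]
    constructor
    · have s5 := ((s1.add s2).add s3).add s4
      refine s5.congr ?_
      intro m
      by_cases hm : m < 2
      · have hmp : ¬ m.Prime := fun h => absurd h.two_le (by omega)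
        rw [if_neg (by omega), if_neg (by omega), if_pos hm, hwtP m hmp]
        ring
      · by_cases hmp : m.Prime
        · rw [if_neg (by tauto), if_neg (by tauto), if_neg hm, hlamp m hmp]
          ring
        · by_cases hg : (m / gpf m) ^ 20 ≤ gpf m
          · rw [if_pos ⟨by omega, hmp, hg⟩, if_neg (by
              rintro ⟨-, -, h⟩
              exact absurd h (not_lt.mpr hg)), if_neg hm, hwtP m hmp]
            ring
          · rw [if_neg (by
              rintro ⟨-, -, h⟩
              exact hg h), if_pos ⟨by omega, hmp, not_le.mp hg⟩, if_neg hm, hwtP m hmp]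
            ring
    · have e1 : ∀ m : ℕ, (if 2 ≤ m ∧ ¬ m.Prime then
          lam (fun p => E * wt S x₀ q p) m * |g 0 v (m / √q)| else 0) =
          (if 2 ≤ m ∧ ¬ m.Prime ∧ (m / gpf m) ^ 20 ≤ gpf m then
            lam (fun p => E * wt S x₀ q p) m * |g 0 v (m / √q)| else 0) +
          (if 2 ≤ m ∧ ¬ m.Prime ∧ gpf m < (m / gpf m) ^ 20 then
            lam (fun p => E * wt S x₀ q p) m * |g 0 v (m / √q)| else 0) := by
        intro m
        by_cases hm : 2 ≤ m ∧ ¬ m.Prime
        · by_cases hg : (m / gpf m) ^ 20 ≤ gpf m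
          · rw [if_pos hm, if_pos ⟨hm.1, hm.2, hg⟩, if_neg (by
              rintro ⟨-, -, h⟩
              exact absurd h (not_lt.mpr hg)), add_zero]
          · rw [if_pos hm, if_neg (by
              rintro ⟨-, -, h⟩
              exact hg h), if_pos ⟨hm.1, hm.2, not_le.mp hg⟩, zero_add]
        · rw [if_neg hm, if_neg (by tauto), if_neg (by tauto), add_zero]
      rw [tsum_congr e1]
      refine (le_of_eq (Summable.tsum_add ?_ ?_)).trans ?_
      · exact s1.congr (fun m => by congr)
      · exact s2.congr (fun m => by congr)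
      · have u1 : (C1 + C2) * (E * Real.log q) * (E * √q) * MY (Real.log q) (g 0 v) ≤
            max CS (C1 + C2) * (E * Real.log q) * (E * √q) * MY (Real.log q) (g 0 v) := by
          apply mul_le_mul_of_nonneg_right _ hM
          apply mul_le_mul_of_nonneg_right _ (mul_nonneg hE0 (Real.sqrt_nonneg _))
          apply mul_le_mul_of_nonneg_right _ (mul_nonneg hE0 hlog.le)
          exact le_max_right _ _
        refine le_trans ?_ u1
        have u2 : (C1 + C2) * (E * Real.log q) * (E * √q) * MY (Real.log q) (g 0 v) =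
            C1 * (E * Real.log q) * (E * √q) * MY (Real.log q) (g 0 v) +
            C2 * (E * Real.log q) * (E * √q) * MY (Real.log q) (g 0 v) := by ring
        rw [u2]
        refine add_le_add (le_trans (le_of_eq ?_) t1) (le_trans (le_of_eq ?_) t2)
        · apply tsum_congr
          intro m
          congr
        · apply tsum_congr
          intro m
          congr

end Pool.Agent.TA
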