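import Pool.Agent.helper38.TA.SpecR

/-!
# Project TA: row FPR (fixed point)
-/

set_option autoImplicit false

open Complex MeasureTheory Set

namespace Pool.Agent.TA

open Pool.Agent.BA (Par GG kl kf vf fV Bw Den PP wt lam gpf rgz)

theorem FPR_MY (L : ℝ) (f : ℝ → ℝ) : 0 ≤ MY L f := by
  unfold MY
  apply setIntegral_nonneg measurableSet_Ioi
  intro x hx
  have hx' : 0 < x := hx
  apply mul_nonneg _ (abs_nonneg _)
  unfold Bw
  split_ifs
  · positivity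
  · positivity

theorem FPR_lamle (hLM : Pool.Agent.BA.LM_stmt) (b e : ℕ → ℝ) (h : ∀ p, |b p| ≤ e p) (m : ℕ) :
    |lam b m| ≤ lam e m := by
  have h1 := (hLM b e).2.2.2.1 m
  rw [h1]
  exact ((hLM (fun p => |b p|) e).2.2.2.2.1 (fun p => abs_nonneg _) h m).2

theorem FPR_sum (hLM : Pool.Agent.BA.LM_stmt) (V : Type) (g : ℕ → V → ℝ → ℝ) (S : ℕ → Finset ℕ)
    (x₀ q C c₁ E : ℝ) (hE : 0 ≤ E) (hN : NLR V g S x₀ q C c₁) (hEc : E * Real.log q ≤ c₁)
    (b : ℕ → ℝ) (hb : ∀ p, |b p| ≤ E * wt S x₀ q p) (v : V) :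
    Summable (fun m : ℕ => lam b m * g 0 v (m / √q)) := by
  have h1 := (hN E hE hEc v).1
  refine Summable.of_norm_bounded h1 ?_
  intro m
  rw [Real.norm_eq_abs, abs_mul]
  exact mul_le_mul_of_nonneg_right (FPR_lamle hLM b _ hb m) (abs_nonneg _)

/-- the first functional -/
noncomputable def FPR_psi (V : Type) [AddCommGroup V] [Module ℝ V] (g : ℕ → V → ℝ → ℝ) (C₁ : ℝ)
    (hT : TSR V g C₁) (Θ : V →ₗ[ℝ] ℝ) (q T : ℝ) : V →ₗ[ℝ] ℝ where
  toFun v := Θ v * T - g 0 v (((1 : ℕ) : ℝ) / √q)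
  map_add' v v' := by
    rw [hT.add, map_add]
    ring
  map_smul' a v := by
    rw [hT.smul, map_smul, RingHom.id_apply, smul_eq_mul, smul_eq_mul]
    ring

theorem FPR (hDNR : DNR_stmt) (hITR : ITR_stmt) (bPS : Pool.Agent.BA.PS_stmt)
    (bLM : Pool.Agent.BA.LM_stmt) : FPR_stmt := by
  classical
  intro V iV iM g C₂ κ N₀ S Θ hT hΘ hS
  obtain ⟨x₀, hx0, hx1, C, c₁, hC, hc1, q₁, hq1, hDN⟩ := hDNR V g C₂ κ N₀ S hT hS
  have hC2 : 0 < C₂ := hT.pos
  obtain ⟨C₃, hC3, q₃, hq3, hPS⟩ := bPS κ N₀ S x₀ hS hx0 hx1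
  refine ⟨x₀, hx0, hx1, min (c₁ / 2) (1 / (8 * C ^ 2)), 1 / (4 * C * C₂), ?_, by positivity, ?_⟩
  · rw [lt_min_iff]
    constructor
    · linarith
    · positivity
  intro c hc hc2
  have hcc1 : 2 * c ≤ c₁ := by
    have := hc2.trans (min_le_left _ _)
    linarith
  have hcc2 : 8 * C ^ 2 * c ≤ 1 := by
    have h1 := hc2.trans (min_le_right _ _)
    rw [le_div_iff₀ (by positivity)] at h1
    linarith
  -- large q
  have hev : ∀ᶠ q : ℝ in Filter.atTop, 8 * C * C₂ * Real.log q ≤ c * q ^ (1 / 5 : ℝ) := by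
    have h1 := (isLittleO_log_rpow_atTop (by norm_num : (0 : ℝ) < 1 / 5)).bound
      (show 0 < c / (8 * C * C₂) by positivity)
    filter_upwards [h1, Filter.eventually_ge_atTop 1] with q h2 h3
    have h4 : 0 ≤ Real.log q := Real.log_nonneg h3
    have h5 : 0 ≤ q ^ (1 / 5 : ℝ) := by positivity
    rw [Real.norm_eq_abs, Real.norm_eq_abs, abs_of_nonneg h4, abs_of_nonneg h5, div_mul_eq_mul_div,
      le_div_iff₀ (by positivity)] at h2
    linarith
  obtain ⟨q₂, hq2⟩ := Filter.eventually_atTop.1 hev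
  refine ⟨max (max q₁ q₂) (max q₃ 3), lt_of_lt_of_le hq1 ((le_max_left _ _).trans (le_max_left _ _)), ?_⟩
  intro q hq
  have hqq1 : q₁ ≤ q := ((le_max_left _ _).trans (le_max_left _ _)).trans hq
  have hqq2 : q₂ ≤ q := ((le_max_right _ _).trans (le_max_left _ _)).trans hq
  have hqq3 : q₃ ≤ q := ((le_max_left _ _).trans (le_max_right _ _)).trans hq
  have hqq4 : 3 ≤ q := ((le_max_right _ _).trans (le_max_right _ _)).trans hq
  have hq0 : 0 < q := by linarith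
  have hq1' : 1 < q := by linarith
  have hL1 : 1 ≤ Real.log q := by
    rw [Real.le_log_iff_exp_le hq0]
    have := Real.exp_one_lt_d9
    linarith
  have hL0 : 0 < Real.log q := by linarith
  have hsq : 0 < √q := Real.sqrt_pos.2 hq0
  obtain ⟨hD, hN⟩ := hDN q hqq1
  obtain ⟨hP, -⟩ := hPS q hqq3
  have hwp : ∀ p : ℕ, wt S x₀ q p ≠ 0 → p.Prime := fun p h => ((hP p).2.2.2 h).1
  have hw0 : ∀ p : ℕ, 0 ≤ wt S x₀ q p := fun p => (hP p).1
  set E : ℝ := c / Real.log q with hE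
  have hE0 : 0 < E := div_pos hc hL0
  have hEL : E * Real.log q = c := by
    rw [hE]
    field_simp
  set T : ℝ := 1 / (4 * C * C₂) * E * √q with hTT
  have hT0 : 0 ≤ T := by positivity
  -- the first functional
  set Ψ : ℝ := C₂ * (1 / (4 * C * C₂) * E + 2 * q ^ (-(1 / 5) : ℝ)) with hΨ
  have hΨ0 : 0 ≤ Ψ := by positivity
  have hpow : (((1 : ℕ) : ℝ) / √q) ^ (-(1 / 20) : ℝ) + (((1 : ℕ) : ℝ) / √q) ^ (-(3 / 5) : ℝ) ≤
      2 * q ^ (-(1 / 5) : ℝ) * √q := by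
    have h1 : ((1 : ℕ) : ℝ) / √q = q ^ (-(1 / 2) : ℝ) := by
      rw [Real.sqrt_eq_rpow, Real.rpow_neg hq0.le, Nat.cast_one, one_div]
    rw [h1, ← Real.rpow_mul hq0.le, ← Real.rpow_mul hq0.le]
    have h2 : 2 * q ^ (-(1 / 5) : ℝ) * √q = 2 * q ^ (3 / 10 : ℝ) := by
      rw [Real.sqrt_eq_rpow, mul_assoc, ← Real.rpow_add hq0]
      norm_num
    rw [h2]
    have h3 : q ^ (-(1 / 2) * -(1 / 20) : ℝ) ≤ q ^ (3 / 10 : ℝ) :=
      Real.rpow_le_rpow_of_exponent_le hq1'.le (by norm_num)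
    have h4 : q ^ (-(1 / 2) * -(3 / 5) : ℝ) = q ^ (3 / 10 : ℝ) := by norm_num
    rw [h4]
    linarith
  obtain ⟨b, hb1, hb2⟩ := hD Ψ (FPR_psi V g C₂ hT Θ q T) hΨ0 (by
    intro v
    show |Θ v * T - g 0 v (((1 : ℕ) : ℝ) / √q)| ≤ _
    have h2 := hΘ (Real.log q) v hL1
    have h4 := hT.bd (Real.log q) v hL1 0 (by norm_num) (((1 : ℕ) : ℝ) / √q) (by
      rw [Nat.cast_one]
      positivity)
    have hMB := FPR_MY (Real.log q) (g 0 v)
    have h5 : |Θ v * T - g 0 v (((1 : ℕ) : ℝ) / √q)| ≤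
        |Θ v| * T + |g 0 v (((1 : ℕ) : ℝ) / √q)| := by
      have := abs_sub (Θ v * T) (g 0 v (((1 : ℕ) : ℝ) / √q))
      rw [abs_mul, abs_of_nonneg hT0] at this
      exact this
    refine h5.trans ?_
    have h6 : |Θ v| * T ≤ C₂ * MY (Real.log q) (g 0 v) * T := mul_le_mul_of_nonneg_right h2 hT0
    have h7 : C₂ * ((((1 : ℕ) : ℝ) / √q) ^ (-(1 / 20) : ℝ) + (((1 : ℕ) : ℝ) / √q) ^ (-(3 / 5) : ℝ)) *
        MY (Real.log q) (g 0 v) ≤ C₂ * (2 * q ^ (-(1 / 5) : ℝ) * √q) * MY (Real.log q) (g 0 v) :=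
      mul_le_mul_of_nonneg_right (mul_le_mul_of_nonneg_left hpow hC2.le) hMB
    have h8 : Ψ * (√q * MY (Real.log q) (g 0 v)) = C₂ * MY (Real.log q) (g 0 v) * T +
        C₂ * (2 * q ^ (-(1 / 5) : ℝ) * √q) * MY (Real.log q) (g 0 v) := by
      rw [hΨ, hTT]
      ring
    rw [h8]
    linarith)
  -- size of `b`
  have hCΨ : C * Ψ ≤ E / 2 := by
    have h1 := hq2 q hqq2
    have h2 : C * Ψ = E / 4 + 2 * C * C₂ * q ^ (-(1 / 5) : ℝ) := by
      rw [hΨ]
      field_simp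
    have h3 : 2 * C * C₂ * q ^ (-(1 / 5) : ℝ) ≤ E / 4 := by
      rw [hE, Real.rpow_neg hq0.le, ← div_eq_mul_inv, div_div, div_le_div_iff₀ (by positivity)
        (by positivity)]
      linarith
    linarith
  have hbE2 : ∀ p, |b p| ≤ E / 2 * wt S x₀ q p := by
    intro p
    exact (hb1 p).trans (mul_le_mul_of_nonneg_right hCΨ (hw0 p))
  have hbE : ∀ p, |b p| ≤ E * wt S x₀ q p := by
    intro p
    refine (hbE2 p).trans (mul_le_mul_of_nonneg_right (by linarith) (hw0 p))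
  have hb0 : ∀ p : ℕ, ¬ p.Prime → b p = 0 := by
    intro p hp
    have h1 : wt S x₀ q p = 0 := by
      by_contra h
      exact hp (hwp p h)
    have h2 := hbE p
    rw [h1, mul_zero] at h2
    exact abs_nonpos_iff.1 h2
  have hEc : E * Real.log q ≤ c₁ := by
    rw [hEL]
    linarith
  -- the residual of `b`
  have hres : ReR V g q (T • Θ : V →ₗ[ℝ] ℝ) b (C * c * E) := by
    intro v
    show |∑' m : ℕ, lam b m * g 0 v (m / √q) - (T • Θ : V →ₗ[ℝ] ℝ) v| ≤ _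
    have hTΘ : (T • Θ : V →ₗ[ℝ] ℝ) v = Θ v * T := by
      rw [LinearMap.smul_apply, smul_eq_mul]
      ring
    rw [hTΘ]
    have hs : Summable (fun m : ℕ => lam b m * g 0 v (m / √q)) :=
      FPR_sum bLM V g S x₀ q C c₁ E hE0.le hN hEc b hbE v
    obtain ⟨hbs, hbt⟩ := hb2 v
    have hbs' : Summable (fun p : ℕ => b p * g 0 v (p / √q)) := hbs
    have hbt' : ∑' p : ℕ, b p * g 0 v (p / √q) = Θ v * T - g 0 v (((1 : ℕ) : ℝ) / √q) := hbt
    obtain ⟨hN1, hN2⟩ := hN E hE0.le hEc v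
    have hlam : ∀ m : ℕ, |lam b m| ≤ lam (fun p => E * wt S x₀ q p) m := FPR_lamle bLM b _ hbE
    have hsN : Summable (fun m : ℕ => if 2 ≤ m ∧ ¬ m.Prime then
        lam (fun p => E * wt S x₀ q p) m * |g 0 v (m / √q)| else 0) := by
      refine Summable.of_norm_bounded hN1 ?_
      intro m
      have h5 : 0 ≤ lam (fun p => E * wt S x₀ q p) m * |g 0 v (m / √q)| :=
        mul_nonneg ((abs_nonneg _).trans (hlam m)) (abs_nonneg _)
      split_ifs
      · rw [Real.norm_eq_abs, abs_of_nonneg h5]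
      · rw [norm_zero]
        exact h5
    have hbound : ∀ m : ℕ, ‖(if 2 ≤ m ∧ ¬ m.Prime then lam b m * g 0 v (m / √q) else 0)‖ ≤
        (if 2 ≤ m ∧ ¬ m.Prime then
          lam (fun p => E * wt S x₀ q p) m * |g 0 v (m / √q)| else 0) := by
      intro m
      split_ifs
      · rw [Real.norm_eq_abs, abs_mul]
        exact mul_le_mul_of_nonneg_right (hlam m) (abs_nonneg _)
      · rw [norm_zero]
    have hsc : Summable (fun m : ℕ => if 2 ≤ m ∧ ¬ m.Prime then lam b m * g 0 v (m / √q) else 0) :=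
      Summable.of_norm_bounded hsN hbound
    have hfin := tsum_of_norm_bounded hsN.hasSum hbound
    rw [Real.norm_eq_abs] at hfin
    have hs1 : HasSum (fun m : ℕ => if m = 1 then g 0 v (((1 : ℕ) : ℝ) / √q) else 0)
        (g 0 v (((1 : ℕ) : ℝ) / √q)) := hasSum_ite_eq 1 _
    have hid : ∀ m : ℕ, lam b m * g 0 v (m / √q) =
        (if m = 1 then g 0 v (((1 : ℕ) : ℝ) / √q) else 0) + b m * g 0 v (m / √q) +
          (if 2 ≤ m ∧ ¬ m.Prime then lam b m * g 0 v (m / √q) else 0) := by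
      intro m
      by_cases hm : m.Prime
      · have h1 : m ≠ 1 := hm.ne_one
        rw [if_neg h1, if_neg (show ¬ (2 ≤ m ∧ ¬ m.Prime) from fun h => h.2 hm), (bLM b b).2.1 m hm]
        ring
      · rw [hb0 m hm]
        by_cases h2 : 2 ≤ m
        · rw [if_neg (show m ≠ 1 by omega), if_pos ⟨h2, hm⟩]
          ring
        · rw [if_neg (show ¬ (2 ≤ m ∧ ¬ m.Prime) from fun h => h2 h.1)]
          rcases (by omega : m = 0 ∨ m = 1) with h4 | h4
          · subst h4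
            unfold lam
            simp
          · subst h4
            rw [(bLM b b).1, if_pos rfl]
            ring
    have htot : ∑' m : ℕ, lam b m * g 0 v (m / √q) - Θ v * T =
        ∑' m : ℕ, (if 2 ≤ m ∧ ¬ m.Prime then lam b m * g 0 v (m / √q) else 0) := by
      rw [tsum_congr hid, (hs1.summable.add hbs').tsum_add hsc, hs1.summable.tsum_add hbs',
        hs1.tsum_eq, hbt']
      ring
    rw [htot]
    refine hfin.trans (hN2.trans (le_of_eq ?_))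
    rw [hEL]
    ring
  -- iteration
  obtain ⟨b', hb'1, hb'2⟩ := hITR V g C₂ S x₀ q C c₁ E (C * c * E) (T • Θ) b hT hq1' hC hE0
    (by positivity) hwp hw0 hD hN (by
      rw [mul_assoc, hEL]
      exact hcc1) (by
      rw [hEL]
      exact hcc2) hbE2 hres (by
      have h1 : 4 * C * (C * c * E) = 4 * C ^ 2 * c * E := by ring
      rw [h1]
      have h2 : 4 * C ^ 2 * c ≤ 1 := by
        have : 0 ≤ 4 * C ^ 2 * c := by positivity
        linarith
      nlinarith)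
  refine ⟨b', hb'1, ?_⟩
  intro v
  refine ⟨FPR_sum bLM V g S x₀ q C c₁ E hE0.le hN hEc b' hb'1 v, ?_⟩
  have h1 : |∑' m : ℕ, lam b' m * g 0 v (m / √q) - (T • Θ : V →ₗ[ℝ] ℝ) v| ≤ 0 * (√q * MY (Real.log q) (g 0 v)) :=
    hb'2 v
  rw [zero_mul] at h1
  have h2 := abs_nonpos_iff.1 h1
  have hTΘ : (T • Θ : V →ₗ[ℝ] ℝ) v = Θ v * T := by
    rw [LinearMap.smul_apply, smul_eq_mul]
    ring
  rw [hTΘ] at h2
  linarith

end Pool.Agent.TA
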